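import Pool.Agent.Helper3.FC.Goals

/-! # Project FC, packet FIN2: from the weight bound to the fractional chromatic number -/

set_option autoImplicit false

namespace Pool.Agent.Helper93.FC.FIN2

open scoped Classical BigOperators

open Pool.Agent.Helper3.FC

/-- the graph of a system of earlier neighbours -/
def gr {d N : ℕ} {nb : ℕ → Finset ℕ} (h : Good d N nb) : SimpleGraph (Fin N) where
  Adj u v := (u : ℕ) ∈ nb v ∨ (v : ℕ) ∈ nb u
  symm := ⟨fun _ _ h => h.symm⟩
  loopless := ⟨fun u hu => by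
    have h1 : (u : ℕ) ∈ nb u := hu.elim id id
    exact lt_irrefl _ ((h u u.2).1 u h1)⟩

theorem cliqueFree {d N : ℕ} {nb : ℕ → Finset ℕ} (h : Good d N nb) : (gr h).CliqueFree 3 := by
  intro s hs
  rw [SimpleGraph.is3Clique_iff] at hs
  obtain ⟨a, b, c, hab, hac, hbc, -⟩ := hs
  have key : ∀ a b c : Fin N, (gr h).Adj a b → (a : ℕ) ∈ nb c → (b : ℕ) ∈ nb c → False := by
    intro a b c hab ha hb
    rcases hab with h1 | h1
    · exact (h c c.2).2.2 a ha b hb h1
    · exact (h c c.2).2.2 b hb a ha h1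
  have lt : ∀ a b : Fin N, (a : ℕ) ∈ nb b → (a : ℕ) < b := fun a b hab => (h b b.2).1 a hab
  rcases id hab with h1 | h1 <;> rcases id hac with h2 | h2 <;> rcases id hbc with h3 | h3
  · exact key a b c hab h2 h3
  · exact key a c b hac h1 h3
  · have := lt _ _ h1; have := lt _ _ h2; have := lt _ _ h3; omega
  · exact key a c b hac h1 h3
  · exact key a b c hab h2 h3
  · have := lt _ _ h1; have := lt _ _ h2; have := lt _ _ h3; omega
  · exact key b c a hbc h1 h2
  · exact key b c a hbc h1 h2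

theorem degen {d N : ℕ} {nb : ℕ → Finset ℕ} (h : Good d N nb) (S : Finset (Fin N))
    (hS : S.Nonempty) : ∃ v ∈ S, (S.filter (fun u => (gr h).Adj v u)).card ≤ d := by
  refine ⟨S.max' hS, S.max'_mem hS, ?_⟩
  refine le_trans ?_ (h (S.max' hS) (S.max' hS).2).2.1
  refine Finset.card_le_card_of_injOn (fun u : Fin N => (u : ℕ)) ?_ ?_
  · intro u hu
    have hu' := Finset.mem_filter.1 (Finset.mem_coe.1 hu)
    rcases hu'.2 with h1 | h1
    · have h2 : ((S.max' hS : Fin N) : ℕ) < u := (h u u.2).1 _ h1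
      have h3 : u ≤ S.max' hS := S.le_max' u hu'.1
      have h4 : (u : ℕ) ≤ (S.max' hS : Fin N) := h3
      omega
    · exact Finset.mem_coe.2 h1
  · intro a _ b _ hab
    exact Fin.ext hab

/-- the image of a set of vertices -/
def im {N : ℕ} (I : Finset (Fin N)) : Set ℕ := {u | ∃ h : u < N, (⟨u, h⟩ : Fin N) ∈ I}

theorem mem_im {N : ℕ} (I : Finset (Fin N)) (v : Fin N) : (v : ℕ) ∈ im I ↔ v ∈ I := by
  constructor
  · rintro ⟨_, h⟩
    exact h
  · intro h
    exact ⟨v.2, h⟩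

theorem indep {d N : ℕ} {nb : ℕ → Finset ℕ} (h : Good d N nb) (I : Finset (Fin N))
    (hI : (gr h).IsIndepSet (I : Set (Fin N))) : Indep N nb (im I) := by
  intro v hv hvI u hu huI
  have h1 : u < v := (h v hv).1 u hu
  have h2 : u < N := h1.trans hv
  have h3 : (⟨u, h2⟩ : Fin N) ∈ I := (mem_im I ⟨u, h2⟩).1 huI
  have h4 : (⟨v, hv⟩ : Fin N) ∈ I := (mem_im I ⟨v, hv⟩).1 hvI
  have h5 : (⟨u, h2⟩ : Fin N) ≠ ⟨v, hv⟩ := by
    intro he
    have := congrArg Fin.val he
    simp only at this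
    omega
  exact hI (Finset.mem_coe.2 h3) (Finset.mem_coe.2 h4) h5 (Or.inl hu)

theorem ex_fin {N : ℕ} (Ω : ℕ →₀ ℝ) (hs : ∀ v, Ω v ≠ 0 → v < N) (φ : ℕ → ℝ) :
    ex Ω φ = ∑ v : Fin N, Ω v * φ v := by
  unfold ex
  rw [← Finset.sum_range (fun v => Ω v * φ v)]
  refine Finsupp.sum_of_support_subset Ω ?_ _ (by intros; simp)
  intro v hv
  exact Finset.mem_range.2 (hs v (Finsupp.mem_support_iff.1 hv))

theorem params {m : ℕ} (hm : 4 ≤ m) : 1 ≤ pn m ∧ 1 ≤ pw m ∧ pn m * pw m ≤ 2 * m ∧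
    pn m * pk m ≤ m ∧ 0 ≤ pη m ∧ pη m ≤ 1 ∧ 0 < Real.log (4 * m) := by
  have hm' : (4 : ℝ) ≤ m := by exact_mod_cast hm
  have h2 : 0 < Real.log 2 := Real.log_pos (by norm_num)
  have h2' : (1 : ℝ) / 2 < Real.log 2 := by have := Real.log_two_gt_d9; linarith
  have h16 : Real.log 16 ≤ Real.log (4 * m) := Real.log_le_log (by norm_num) (by linarith)
  have h16' : Real.log 16 = 4 * Real.log 2 := by
    rw [show (16 : ℝ) = 2 ^ 4 by norm_num, Real.log_pow]
    norm_num
  have hpos : 0 < Real.log (4 * m) := by rw [h16'] at h16; linarith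
  have hle : Real.log (4 * m) ≤ 4 * m - 1 := Real.log_le_sub_one_of_pos (by linarith)
  have hn : 1 ≤ pn m := by
    unfold pn
    refine Nat.le_floor ?_
    rw [Nat.cast_one, le_div_iff₀ (by linarith)]
    rw [h16'] at h16
    linarith
  have hn2 : pn m ≤ 2 * m := by
    have h3 : ((pn m : ℕ) : ℝ) ≤ Real.log (4 * m) / (4 * Real.log 2) := by
      unfold pn
      exact Nat.floor_le (div_nonneg hpos.le (by linarith))
    have h4 : Real.log (4 * m) / (4 * Real.log 2) ≤ 2 * m := by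
      rw [div_le_iff₀ (by linarith)]
      nlinarith
    exact_mod_cast h3.trans h4
  refine ⟨hn, ?_, ?_, ?_, ?_, ?_, hpos⟩
  · unfold pw
    exact (Nat.one_le_div_iff (by omega)).2 hn2
  · unfold pw
    exact Nat.mul_div_le _ _
  · unfold pk
    exact Nat.mul_div_le _ _
  · unfold pη Lam
    positivity
  · unfold pη Lam
    rw [div_div, div_le_one (by positivity)]
    nlinarith

theorem t (hg : GBStmt) (ha : ANStmt) : FINStmt := by
  obtain ⟨m₀, hm₀⟩ := ha
  refine ⟨4 * m₀ + 6000, fun d hd => ?_⟩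
  obtain ⟨m, hm⟩ : ∃ m, m = d / 4 := ⟨_, rfl⟩
  have hmd : 4 * m ≤ d := by omega
  have hdm : d ≤ 4 * m + 3 := by omega
  have hm1 : m₀ ≤ m := by omega
  have hm2 : 1500 ≤ m := by omega
  obtain ⟨L₀, hL₀⟩ := hm₀ m hm1
  obtain ⟨q1, q2, q3, q4, q5, q6, q7⟩ := params (m := m) (by omega)
  obtain ⟨N, nb, Ω, hG, hP, hs, hW⟩ := hg m (pn m) (pw m) (pk m) (max L₀ 1) (pη m) (by omega)
    q1 q2 (le_max_right _ _) q3 q4 q5 q6
  refine ⟨Fin N, inferInstance, gr hG, cliqueFree hG, fun S hS => ?_, fun ω hω hI hc => ?_⟩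
  · obtain ⟨v, hv, hv'⟩ := degen hG S hS
    exact ⟨v, hv, le_trans (le_of_eq (by congr)) (hv'.trans hmd)⟩
  have hm' : (1500 : ℝ) ≤ m := by exact_mod_cast hm2
  have hLam : 0 < Lam m := div_pos q7 (by linarith)
  have h1 : (∑ v : Fin N, Ω v) = 1 := by
    have := hP.2
    rw [ex_fin Ω hs] at this
    simpa using this
  have hmass : ∀ I : Finset (Fin N), ω I ≠ 0 →
      (∑ v : Fin N, Ω v * (if v ∈ I then (1 : ℝ) else 0)) ≤ 983 / 1000 * Lam m := by
    intro I hI0
    obtain ⟨W, hW'⟩ := hW (im I) (indep hG I (hI I hI0))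
    have h2 := hL₀ (max L₀ 1) (le_max_left _ _) W
    rw [← hW'] at h2
    unfold mass at h2
    rw [ex_fin Ω hs] at h2
    simp only [mem_im] at h2
    exact h2
  have h3 : 1 ≤ (∑ I, ω I) * (983 / 1000 * Lam m) := by
    calc (1 : ℝ) = ∑ v : Fin N, Ω v := h1.symm
      _ ≤ ∑ v : Fin N, Ω v * ∑ I : Finset (Fin N), (if v ∈ I then ω I else 0) := by
          refine Finset.sum_le_sum fun v _ => ?_
          have h4 := hc v
          rw [Finset.sum_filter] at h4
          refine le_mul_of_one_le_right (hP.1 v) (h4.trans (le_of_eq ?_))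
          refine Finset.sum_congr rfl fun I _ => ?_
          by_cases hv : v ∈ I
          · rw [if_pos hv, if_pos hv]
          · rw [if_neg hv, if_neg hv]
      _ = ∑ I : Finset (Fin N), ω I * ∑ v : Fin N, Ω v * (if v ∈ I then (1 : ℝ) else 0) := by
          simp_rw [Finset.mul_sum]
          rw [Finset.sum_comm]
          refine Finset.sum_congr rfl fun I _ => Finset.sum_congr rfl fun v _ => ?_
          split_ifs <;> ring
      _ ≤ ∑ I : Finset (Fin N), ω I * (983 / 1000 * Lam m) := by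
          refine Finset.sum_le_sum fun I _ => ?_
          by_cases h0 : ω I = 0
          · rw [h0, zero_mul, zero_mul]
          · exact mul_le_mul_of_nonneg_left (hmass I h0) (hω I)
      _ = (∑ I, ω I) * (983 / 1000 * Lam m) := by rw [Finset.sum_mul]
  have hmd' : (4 * m : ℝ) ≤ d := by exact_mod_cast hmd
  have hdm' : (d : ℝ) ≤ 4 * m + 3 := by exact_mod_cast hdm
  have h5 : Real.log (4 * m) ≤ Real.log d := Real.log_le_log (by linarith) hmd'
  have h6 : (∑ I, ω I) ≥ 1000 / 983 * (4 * m / Real.log (4 * m)) := by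
    have h7 : Lam m = Real.log (4 * m) / (4 * m) := rfl
    rw [h7] at h3
    rw [ge_iff_le, ← mul_div_assoc, div_le_iff₀ q7]
    have h8 : 0 < (4 * m : ℝ) := by linarith
    have h9 : (∑ I, ω I) * (983 / 1000 * (Real.log (4 * m) / (4 * m))) =
        ((∑ I, ω I) * Real.log (4 * m)) * (983 / 1000) / (4 * m) := by ring
    rw [h9, le_div_iff₀ h8] at h3
    linarith
  refine le_trans ?_ h6
  have h10 : 4 * m / Real.log d ≤ 4 * m / Real.log (4 * m) :=
    div_le_div_of_nonneg_left (by linarith) q7 h5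
  refine le_trans ?_ (mul_le_mul_of_nonneg_left h10 (by norm_num))
  rw [← mul_div_assoc]
  refine div_le_div_of_nonneg_right ?_ (q7.le.trans h5)
  linarith

end Pool.Agent.Helper93.FC.FIN2
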